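import Pool.Agent.P.MP_6327e0_co.U.Low

open Finset
open scoped symmDiff

namespace Pool.Agent.Results.MP_6327e0_co.LowerConst

open Pool.Agent.P.MP_6327e0_co.U in
theorem result (n d : ℕ) (hd : 2 ≤ d) (hn : 2 * d < n)
    (h : (2 * (n : ℤ) - 6 * d - 1) ^ 2 < 28 * d ^ 2 - 60 * d + 33) :
    ∃ 𝓕 : Finset (Finset (Fin n)), (∀ A ∈ 𝓕, ∀ B ∈ 𝓕, (A ∆ B).card ≤ 2 * d) ∧
      ∀ C : Finset (Fin n), (n - 2).choose (d - 1) < (𝓕.filter fun F => d < (F ∆ C).card).card := by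
  obtain ⟨e, rfl⟩ : ∃ e, d = e + 2 := ⟨d - 2, by omega⟩
  obtain ⟨s, rfl⟩ : ∃ s, n = 5 + (e + s) := ⟨n - 5 - e, by omega⟩
  obtain ⟨𝓕, h1, h2⟩ := transport finSumFinEquiv (low_sum (e + s) (e + 2))
  refine ⟨𝓕, h1, fun C => lt_of_lt_of_le ?_ (h2 C)⟩
  rw [show 5 + (e + s) - 2 = e + s + 3 by omega, show e + 2 - 1 = e + 1 by omega]
  refine low_num rfl ?_
  zify
  push_cast at h
  nlinarith

end Pool.Agent.Results.MP_6327e0_co.LowerConst
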