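import Pool.Agent.P.MP_6327e0_co.Main

open Finset
open scoped symmDiff

namespace Pool.Agent.Results.MP_6327e0_co.Overflow

/-- The Hamming ball `K_A(n,2d) = {K ∆ A : |K| ≤ d}`. -/
def ball {n : ℕ} (d : ℕ) (A : Finset (Fin n)) : Finset (Finset (Fin n)) :=
  (univ.filter (fun K : Finset (Fin n) => K.card ≤ d)).image (fun K => K ∆ A)

/-- The double ball `K_{A,x}(n,2d+1) = {K ∆ A : |K \ {x}| ≤ d}`. -/
def doubleBall {n : ℕ} (d : ℕ) (A : Finset (Fin n)) (x : Fin n) : Finset (Finset (Fin n)) :=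
  (univ.filter (fun K : Finset (Fin n) => (K \ {x}).card ≤ d)).image (fun K => K ∆ A)

open Pool.Agent.P.MP_6327e0_co in
theorem result : ∃ c : ℝ, ∀ u n : ℕ, 1 ≤ u → c * u < n →
    ∀ 𝓕 : Finset (Finset (Fin n)), (∀ A ∈ 𝓕, ∀ B ∈ 𝓕, (A ∆ B).card ≤ u) →
      (∀ d : ℕ, u = 2 * d →
        ∃ A : Finset (Fin n), (𝓕 \ ball d A).card ≤ (n - 2).choose (d - 1)) ∧
      (∀ d : ℕ, u = 2 * d + 1 →
        ∃ (A : Finset (Fin n)) (x : Fin n),
          (𝓕 \ doubleBall d A x).card ≤ if d = 0 then 0 else 2 * (n - 3).choose (d - 1)) := by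
  obtain ⟨c, hc⟩ := ctx_exists
  refine ⟨c, fun u n hu hn 𝓕 hD => ?_⟩
  have hn' : c * u < n := by exact_mod_cast hn
  have e1 : ∀ d A, 𝓕 \ ball d A = 𝓕.filter (fun F => d < (F ∆ A).card) := by
    intro d A
    ext F
    have : F ∈ ball d A ↔ _ := mem_tr (C := A) (F := F)
    simp [this]
  have e2 : ∀ d A x, 𝓕 \ doubleBall d A x = 𝓕.filter (fun F => d < ((F ∆ A).erase x).card) := by
    intro d A x
    ext F
    have : F ∈ doubleBall d A x ↔ _ := mem_tr (C := A) (F := F)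
    simp [this, sdiff_singleton_eq_erase]
  simp only [e1, e2]
  refine ⟨fun d hd => ?_, fun d hd => ?_⟩
  · subst hd
    exact even_main (hc _ d (by omega) (by nlinarith)) hD
  · subst hd
    split_ifs with h0
    · subst h0
      obtain ⟨A, x, h⟩ := odd_zero (by omega) hD
      exact ⟨A, x, h.le⟩
    · exact odd_main (hc _ d (by omega) (by nlinarith)) hD

end Pool.Agent.Results.MP_6327e0_co.Overflow
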