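import Pool.Agent.P.MP_6327e0_co.U.Main

open Finset
open scoped symmDiff

namespace Pool.Agent.Results.MP_6327e0_co.UnionExact

open Pool.Agent.P.MP_6327e0_co.U in
theorem result (n d k : ℕ) (hn : 2 * d < n)
    (hk : IsLeast {i : ℕ | (2 * i).choose i * (n - 2 * i - 1) ≤ 4 ^ i * (n - 2 * d - 1)} k) :
    (∀ 𝓕 : Finset (Finset (Fin n)), (∀ A ∈ 𝓕, ∀ B ∈ 𝓕, (A ∪ B).card ≤ 2 * d) →
      (𝓕.filter fun F => d < F.card).card ≤ ∑ j ∈ range (d - k + 1),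
        (n - 2 * k).choose j * ∑ i ∈ Ioc (d - j) (2 * k), (2 * k).choose i) ∧
    ∃ 𝓕 : Finset (Finset (Fin n)), (∀ A ∈ 𝓕, ∀ B ∈ 𝓕, (A ∪ B).card ≤ 2 * d) ∧
      ∀ C : Finset (Fin n), ∑ j ∈ range (d - k + 1),
        (n - 2 * k).choose j * ∑ i ∈ Ioc (d - j) (2 * k), (2 * k).choose i ≤
          (𝓕.filter fun F => d < (F ∆ C).card).card := by
  simp only [up_eq]
  obtain ⟨h1, h2⟩ := be_le hn hk
  refine ⟨fun 𝓕 h => ?_, lower hn h1⟩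
  obtain ⟨l, l1, l2⟩ := upper hn h
  exact l2.trans (h2 l l1)

end Pool.Agent.Results.MP_6327e0_co.UnionExact
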